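import Pool.Agent.H76.HB.Main

set_option autoImplicit false

namespace Pool.Agent.Results.MP_1eaf70_lc.AddThreeSymbols

open Pool.Agent.H76.HB

/-- For every number of states `n + 2 ≥ 2`, every number of symbols `m + 1 ≥ 1`, every `k` and every
`j ≥ 3`: if a machine with exactly `k` halting entries halts on the blank tape after exactly `t`
steps, then some machine with the same number of states, with `j` more symbols and with exactly
`k` halting entries halts after at least `t + 2 (n + 2) + 2` steps, and at that time has at least
two more nonblank cells than the given machine, and even at least two more than the number of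
cells the given machine scans in its whole run. -/
theorem result (n m j k : ℕ) (hj : 3 ≤ j) (δ : Table (n + 2) (m + 1)) (hk : haltEntries δ = k)
    (t : ℕ) (ht : HaltsAt δ t) :
    ∃ (δ' : Table (n + 2) (m + j + 1)) (t' : ℕ), haltEntries δ' = k ∧ HaltsAt δ' t' ∧
      t + 2 * (n + 2) + 2 ≤ t' ∧ scanned δ t + 2 ≤ nonblank δ' t' ∧
      nonblank δ t + 2 ≤ nonblank δ' t' :=
  addThree n m j k hj δ hk t ht

end Pool.Agent.Results.MP_1eaf70_lc.AddThreeSymbols
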