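import Pool.Agent.H76.HB.Idle

set_option autoImplicit false

namespace Pool.Agent.Results.MP_1eaf70_lc.FreshAvoidingState

open Pool.Agent.H76.HB

/-- One more symbol suffices for machines with a state `z` that never scans an unvisited cell:
let a machine with `n + 2` states and `m + 1` symbols, exactly `k` of whose entries are halting,
halt on the blank tape after exactly `t` steps, and suppose that whenever it is in the state `z`
before that time it scans a cell that it has scanned before. Suppose also that at the end some
scanned cell is blank, or that the machine never scans a cell to the right of its start cell, or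
that it never scans a cell to the left of it. Then a machine with `n + 2` states, `m + 2` symbols
and exactly `k` halting entries halts after more steps with more nonblank cells. -/
theorem result (n m k : ℕ) (δ : Table (n + 2) (m + 1)) (hk : haltEntries δ = k)
    (t : ℕ) (ht : HaltsAt δ t) (z : Fin (n + 2))
    (hz : ∀ s < t, ((step δ)^[s] (start (n + 1) m)).1 = some z →
      ∃ u < s, ((step δ)^[u] (start (n + 1) m)).2.2 = ((step δ)^[s] (start (n + 1) m)).2.2)
    (h : nonblank δ t < scanned δ t ∨
      (∀ s < t, ((step δ)^[s] (start (n + 1) m)).2.2 ≤ 0) ∨
      (∀ s < t, 0 ≤ ((step δ)^[s] (start (n + 1) m)).2.2)) :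
    ∃ (δ' : Table (n + 2) (m + 2)) (t' : ℕ), haltEntries δ' = k ∧ HaltsAt δ' t' ∧
      t < t' ∧ nonblank δ t < nonblank δ' t' := by
  obtain ⟨δ', h1, h2, h3⟩ := oneSymbol δ t ht z hz h
  exact ⟨δ', t + 1, h1.trans hk, h2, Nat.lt_succ_self t, h3⟩

end Pool.Agent.Results.MP_1eaf70_lc.FreshAvoidingState
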